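import Pool.Agent.H59.L.S8.W586.SK.Stm

/-!
# Project SX: KLS for exchangeable (permutation invariant) log-concave measures (statements)
-/

set_option autoImplicit false

namespace Pool.Agent.W586.SX

open MeasureTheory Set
open scoped ENNReal InnerProductSpace
open Pool.Agent.H212R2.KLS (mu Bdd)
open Pool.Agent.H888R2.KT (LC St zz gs gc pst hs)
open Pool.Agent.W586.SK (E nm dv chi)

/-- log-concave density, invariant under permutations of the coordinates -/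
structure Sx {n : ℕ} (ρ : E n → ℝ) : Prop where
  nonneg : ∀ x, 0 ≤ ρ x
  meas : Measurable ρ
  logc : ∀ x y : E n, ∀ t : ℝ, 0 < t → t < 1 →
    ρ x ^ (1 - t) * ρ y ^ t ≤ ρ ((1 - t) • x + t • y)
  inv : ∀ σ : Equiv.Perm (Fin n), ∀ x y : E n, (∀ i, y i = x (σ i)) → ρ y = ρ x

/-- exchange of the coordinates `k` and `l` -/
noncomputable def sw {n : ℕ} (k l : Fin n) : E n ≃ₗᵢ[ℝ] E n :=
  LinearIsometryEquiv.piLpCongrLeft 2 ℝ ℝ (Equiv.swap k l)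

theorem sw_apply {n : ℕ} (k l : Fin n) (x : E n) (j : Fin n) :
    sw k l x j = x (Equiv.swap k l j) := by
  unfold sw
  rw [LinearIsometryEquiv.piLpCongrLeft_apply]
  rfl

/-- unit vector -/
noncomputable def ev {n : ℕ} (j : Fin n) : E n := EuclideanSpace.single j 1

/-- the unit vector `(1, …, 1) / √n` -/
noncomputable def ee (n : ℕ) : E n := WithLp.toLp 2 fun _ => 1 / Real.sqrt n

/-! ### the vector field -/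

noncomputable def ps (R d : ℝ) : ℝ := 1 + Real.exp (-d / R)

noncomputable def ph (R u : ℝ) : ℝ :=
  1 / 4 + 1 / 4 * (Real.exp (u / (2 * R)) / (1 + Real.exp (u / (2 * R))))

noncomputable def qq (R u : ℝ) : ℝ := 1 / 2 * (1 + u / R) * (max (1 - u ^ 2 / R ^ 2) 0) ^ 2

/-- average of `qq` over the coordinates different from `k`, `l` -/
noncomputable def Qa {n : ℕ} (R : ℝ) (k l : Fin n) (x : E n) : ℝ :=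
  1 / n * ∑ j ∈ (Finset.univ.erase k).erase l, qq R (x j)

/-- the vector field on the half space `x l < x k` -/
noncomputable def fx {n : ℕ} (R : ℝ) (k l : Fin n) (x : E n) : E n :=
  WithLp.toLp 2 fun j =>
    if j = k then ps R (x k - x l) * (1 - ph R (-x k) * chi R (-x l) * Qa R k l (-x))
    else if j = l then -(ps R (x k - x l) * (1 - ph R (x l) * chi R (x k) * Qa R k l x))
    else -(ps R (x k - x l) / n *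
      (ph R (x l) * chi R (x k) * qq R (x j) - ph R (-x k) * chi R (-x l) * qq R (-x j)))

/-! ### the parts -/

/-- DIR: spreading lowers the density (differential form) -/
def S_DIR : Prop := ∀ {n : ℕ} (g : E n → ℝ), Sx g → Differentiable ℝ g → ∀ (k l : Fin n) (x : E n),
  x l ≤ x k → fderiv ℝ g x (ev k - ev l) ≤ 0

/-- ZZ -/
def S_ZZ : Prop := ∀ {n : ℕ} (ρ : E n → ℝ), Sx ρ → LC ρ → ∀ h : ℝ, 0 < h →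
  Sx (zz h ρ) ∧ ContDiff ℝ 1 (zz h ρ)

/-- FIELD -/
def S_FIELD : Prop := ∀ {n : ℕ} (k l : Fin n) (a : ℝ), k ≠ l → 0 < a →
  ContDiff ℝ 1 (fx (48 * a) k l) ∧ ∀ x : E n, x l < x k →
    ‖fx (48 * a) k l x‖ ≤ 4 ∧
    (nm x ≤ a * n → dv (fx (48 * a) k l) x ≤ -(1 / (3072 * a))) ∧
    ∃ (α : ℝ) (β γ : Fin n → ℝ), 0 ≤ α ∧ (∀ j, 0 ≤ β j) ∧ (∀ j, 0 ≤ γ j) ∧
      (∀ j, β j ≠ 0 → x j ≤ x k) ∧ (∀ j, γ j ≠ 0 → x l ≤ x j) ∧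
      fx (48 * a) k l x =
        α • (ev k - ev l) + ∑ j, β j • (ev k - ev j) + ∑ j, γ j • (ev j - ev l)

/-- FLOW -/
def S_FLOW : Prop := ∀ {n : ℕ} (ρ : E n → ℝ), Sx ρ → LC ρ → ∀ (k l : Fin n) (a : ℝ), k ≠ l →
  0 < a → ∀ F : E n → ℝ, ContDiff ℝ 1 F → HasCompactSupport F → (∀ x, 0 ≤ F x) →
  (∀ x, x k ≤ x l → F x = 0) →
  0 ≤ ∫ x, (fderiv ℝ F x (fx (48 * a) k l x) + F x * dv (fx (48 * a) k l) x) ∂(mu ρ)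

/-- HALF -/
def S_HALF : Prop := ∀ {n : ℕ} (k l : Fin n) (f : E n → ℝ), k ≠ l → ContDiff ℝ 1 f →
  (∀ x, f (sw k l x) = - f x) →
  ContDiff ℝ 1 (fun x : E n => if x l < x k then f x ^ 2 else 0) ∧
  ∀ x : E n, fderiv ℝ (fun x : E n => if x l < x k then f x ^ 2 else 0) x =
    if x l < x k then (2 * f x) • fderiv ℝ f x else 0

/-- CUT: a smooth radial cutoff function -/
def S_CUT : Prop := ∀ {n : ℕ} (R : ℝ), 0 < R → ∃ η : E n → ℝ, ContDiff ℝ 1 η ∧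
  HasCompactSupport η ∧ (∀ x, ‖x‖ ≤ R → η x = 1 ∧ fderiv ℝ η x = 0) ∧
  ∀ x y, ‖x‖ = ‖y‖ → η x = η y

/-- HARDY -/
def S_HARDY : Prop := ∀ {n : ℕ} (ρ : E n → ℝ), Sx ρ → LC ρ → ∀ a : ℝ, 0 < a →
  (∀ x, ρ x ≠ 0 → nm x ≤ a * n) → ∀ (k l : Fin n) (f : E n → ℝ), k ≠ l → ContDiff ℝ 1 f →
  (∀ x, f (sw k l x) = - f x) →
  ∫ x, f x ^ 2 ∂(mu ρ) ≤ (24576 * a) ^ 2 * ∫ x, ‖fderiv ℝ f x‖ ^ 2 ∂(mu ρ)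

/-- ITER: `Pool.Agent.H888R2.KT.iter` with an integrated hypothesis -/
def S_ITER : Prop := ∀ {κ : Type} [Fintype κ] {ρ : EuclideanSpace ℝ κ → ℝ}, LC ρ → ∀ {q : ℕ}
  (e : Fin q → EuclideanSpace ℝ κ), Orthonormal ℝ e → ∀ K : ℝ, 0 < K → St e K ρ → ∀ Θ : ℝ, K ≤ Θ →
  ∀ S : Set (EuclideanSpace ℝ κ → ℝ), (∀ u ∈ S, ContDiff ℝ 1 u → gs Θ (pst Θ ρ u) ∈ S) →
  (∀ u ∈ S, ContDiff ℝ 1 u → ∫ x, (‖fderiv ℝ (gs Θ (pst Θ ρ u)) x‖ ^ 2 -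
    ∑ j, (fderiv ℝ (gs Θ (pst Θ ρ u)) x (e j)) ^ 2) ∂(mu ρ) ≤
    Θ * ∫ x, hs (gs Θ (pst Θ ρ u)) x ∂(mu ρ)) →
  ∀ u ∈ S, ContDiff ℝ 1 u →
  ∃ c : ℝ, ∫ x, (u x - c) ^ 2 ∂(mu ρ) ≤ 4 * Θ * ∫ x, ‖fderiv ℝ u x‖ ^ 2 ∂(mu ρ)

/-- SYM: symmetric functions, density strongly log-concave in the direction `(1, …, 1)` -/
def S_SYM : Prop := ∀ {n : ℕ} (ρ : E n → ℝ), 1 ≤ n → Sx ρ → LC ρ → ∀ L : ℝ, 0 < L →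
  (∀ (k l : Fin n) (f : E n → ℝ), k ≠ l → ContDiff ℝ 1 f → (∀ x, f (sw k l x) = - f x) →
    ∫ x, f x ^ 2 ∂(mu ρ) ≤ L * ∫ x, ‖fderiv ℝ f x‖ ^ 2 ∂(mu ρ)) →
  ∀ K : ℝ, L ≤ K → St (fun _ : Fin 1 => ee n) K ρ →
  ∀ u : E n → ℝ, ContDiff ℝ 1 u → (∀ k l x, u (sw k l x) = u x) →
  ∃ c : ℝ, ∫ x, (u x - c) ^ 2 ∂(mu ρ) ≤ 4 * K * ∫ x, ‖fderiv ℝ u x‖ ^ 2 ∂(mu ρ)

/-- SEQ: from symmetric functions and functions odd under a transposition to all functions -/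
def S_SEQ : Prop := ∀ {n : ℕ} (ρ : E n → ℝ), Sx ρ → LC ρ → ∀ L : ℝ, 0 < L →
  (∀ (k l : Fin n) (f : E n → ℝ), k ≠ l → ContDiff ℝ 1 f → (∀ x, f (sw k l x) = - f x) →
    ∫ x, f x ^ 2 ∂(mu ρ) ≤ L * ∫ x, ‖fderiv ℝ f x‖ ^ 2 ∂(mu ρ)) →
  (∀ u : E n → ℝ, ContDiff ℝ 1 u → (∀ k l x, u (sw k l x) = u x) →
    ∃ c : ℝ, ∫ x, (u x - c) ^ 2 ∂(mu ρ) ≤ L * ∫ x, ‖fderiv ℝ u x‖ ^ 2 ∂(mu ρ)) →
  ∀ f : E n → ℝ, ContDiff ℝ 1 f →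
  ∃ c : ℝ, ∫ x, (f x - c) ^ 2 ∂(mu ρ) ≤ L * ∫ x, ‖fderiv ℝ f x‖ ^ 2 ∂(mu ρ)

/-- TAIL (Borell) -/
def S_TAIL : Prop := ∀ {n : ℕ} (ρ : E n → ℝ), 1 ≤ n → Sx ρ → Bdd ρ → mu ρ univ = 1 →
  ∀ s : ℝ, 0 < s → (∀ i, ∫ x, x i ^ 2 ∂(mu ρ) ≤ s) → ∀ t : ℝ, 1 ≤ t →
  mu ρ {x | 4 * t * Real.sqrt s * n < nm x} ≤ ENNReal.ofReal (Real.exp (-(t / 2)))

/-- MULTI: local Poincare inequalities on an increasing family of sets and an exponential tail give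
the variance bound for Lipschitz functions -/
def S_MULTI : Prop := ∃ C : ℝ, 0 < C ∧ ∀ {n : ℕ} (μ : Measure (E n)) [IsProbabilityMeasure μ],
  (∃ R, μ (Metric.closedBall 0 R)ᶜ = 0) → ∀ (A : ℝ → Set (E n)), (∀ t, MeasurableSet (A t)) →
  (∀ t t', t ≤ t' → A t ⊆ A t') →
  (∀ t : ℝ, 1 ≤ t → μ (A t)ᶜ ≤ ENNReal.ofReal (Real.exp (-(t / 2)))) → ∀ D : ℝ, 0 < D →
  (∀ t : ℝ, 4 ≤ t → ∀ h : E n → ℝ, ContDiff ℝ 1 h → ∃ c : ℝ, ∫ x in A t, (h x - c) ^ 2 ∂μ ≤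
    D * t ^ 2 * ∫ x in A t, ‖fderiv ℝ h x‖ ^ 2 ∂μ) →
  ∀ f : E n → ℝ, ContDiff ℝ 1 f → (∀ x, ‖fderiv ℝ f x‖ ≤ 1) →
  ∫ x, f x ^ 2 ∂μ - (∫ x, f x ∂μ) ^ 2 ≤ C * D

/-- BAS -/
def S_BAS : Prop := ∀ {n : ℕ} (ρ : E n → ℝ), Sx ρ →
  (∀ r : ℝ, Sx ({x | nm x ≤ r}.indicator ρ)) ∧ (∀ r : ℝ, Sx ({x | ‖x‖ ≤ r}.indicator ρ)) ∧
  (∀ c : ℝ, 0 ≤ c → Sx (fun x => c * ρ x)) ∧
  (∀ c : ℝ, Sx (fun x => ρ (x + c • ee n))) ∧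
  ∀ K : ℝ, 0 < K → ∀ τ : EuclideanSpace ℝ (Fin 1), 1 ≤ n →
    Sx (fun x => ρ x * Pool.Agent.H888R2.KT.tw (fun _ : Fin 1 => ee n) K τ x) ∧
    St (fun _ : Fin 1 => ee n) K
      (fun x => ρ x * Pool.Agent.H888R2.KT.tw (fun _ : Fin 1 => ee n) K τ x)

/-- CORE: bounded support, Lipschitz functions -/
def S_CORE (C : ℝ) : Prop := ∀ {n : ℕ} (ρ : E n → ℝ), 1 ≤ n → Sx ρ → Bdd ρ → mu ρ univ = 1 →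
  ∀ s : ℝ, 0 < s → (∀ θ : E n, ∫ x, ⟪θ, x⟫_ℝ ^ 2 ∂(mu ρ) ≤ s * ‖θ‖ ^ 2) →
  ∀ f : E n → ℝ, ContDiff ℝ 1 f → (∀ x, ‖fderiv ℝ f x‖ ≤ 1) →
  ∫ x, f x ^ 2 ∂(mu ρ) - (∫ x, f x ∂(mu ρ)) ^ 2 ≤ C * s

/-- MAINB: Lipschitz functions, general case from CORE (second moments) -/
def S_MAINB : Prop := ∀ C : ℝ, 0 < C → S_CORE C → ∀ {n : ℕ} (ρ : E n → ℝ), 1 ≤ n → Sx ρ →
  mu ρ univ = 1 → ∀ s : ℝ, 0 < s →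
  (∀ θ : E n, ∫⁻ x, ENNReal.ofReal (⟪θ, x⟫_ℝ ^ 2) ∂(mu ρ) ≤ ENNReal.ofReal (s * ‖θ‖ ^ 2)) →
  ∀ f : E n → ℝ, ContDiff ℝ 1 f → (∀ x, ‖fderiv ℝ f x‖ ≤ 1) →
  MemLp f 2 (mu ρ) ∧ ∫ x, (f x - ∫ y, f y ∂(mu ρ)) ^ 2 ∂(mu ρ) ≤ C * s

/-- MAINC: bounded functions, general case from CORE (second moments) -/
def S_MAINC : Prop := ∀ C : ℝ, 0 < C → S_CORE C → ∀ {n : ℕ} (ρ : E n → ℝ), 1 ≤ n → Sx ρ →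
  mu ρ univ = 1 → ∀ s : ℝ, 0 < s →
  (∀ θ : E n, ∫⁻ x, ENNReal.ofReal (⟪θ, x⟫_ℝ ^ 2) ∂(mu ρ) ≤ ENNReal.ofReal (s * ‖θ‖ ^ 2)) →
  ∀ f : E n → ℝ, ContDiff ℝ 1 f → (∀ x, |f x| ≤ 1) →
  ENNReal.ofReal ((∫ x, (f x - ∫ y, f y ∂(mu ρ)) ^ 2 ∂(mu ρ)) ^ 2) ≤
    ENNReal.ofReal (8 * C * s) * ∫⁻ x, ENNReal.ofReal (‖fderiv ℝ f x‖ ^ 2) ∂(mu ρ)

/-- CENT: from second moments to the covariance -/
def S_CENT : Prop := ∀ C : ℝ, 0 < C →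
  (∀ {n : ℕ} (ρ : E n → ℝ), 1 ≤ n → Sx ρ → mu ρ univ = 1 → ∀ s : ℝ, 0 < s →
    (∀ θ : E n, ∫⁻ x, ENNReal.ofReal (⟪θ, x⟫_ℝ ^ 2) ∂(mu ρ) ≤ ENNReal.ofReal (s * ‖θ‖ ^ 2)) →
    ∀ f : E n → ℝ, ContDiff ℝ 1 f →
    ((∀ x, ‖fderiv ℝ f x‖ ≤ 1) → MemLp f 2 (mu ρ) ∧
      ProbabilityTheory.variance f (mu ρ) ≤ C * s) ∧
    ((∀ x, |f x| ≤ 1) → ENNReal.ofReal (ProbabilityTheory.variance f (mu ρ) ^ 2) ≤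
      ENNReal.ofReal (C * s) * ∫⁻ x, ENNReal.ofReal (‖fderiv ℝ f x‖ ^ 2) ∂(mu ρ))) →
  ∀ {n : ℕ} (ρ : E n → ℝ), 1 ≤ n → Sx ρ → mu ρ univ = 1 → ∀ s : ℝ, 0 < s →
    (∀ θ : E n, ProbabilityTheory.evariance (fun x => ⟪θ, x⟫_ℝ) (mu ρ) ≤
      ENNReal.ofReal (s * ‖θ‖ ^ 2)) →
    ∀ f : E n → ℝ, ContDiff ℝ 1 f →
    ((∀ x, ‖fderiv ℝ f x‖ ≤ 1) → MemLp f 2 (mu ρ) ∧
      ProbabilityTheory.variance f (mu ρ) ≤ C * s) ∧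
    ((∀ x, |f x| ≤ 1) → ENNReal.ofReal (ProbabilityTheory.variance f (mu ρ) ^ 2) ≤
      ENNReal.ofReal (C * s) * ∫⁻ x, ENNReal.ofReal (‖fderiv ℝ f x‖ ^ 2) ∂(mu ρ))

end Pool.Agent.W586.SX
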