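import Pool.Agent.H59.L.S8.H888R2.KT.Defs

/-!
# Project SK: KLS for 1-symmetric log-concave measures (statements of the parts)

`E n` is `ℝ^n`.  `Sy ρ`: log-concave density invariant under permutations and sign changes of the
coordinates.
-/

set_option autoImplicit false

namespace Pool.Agent.W586.SK

open MeasureTheory Set
open scoped ENNReal InnerProductSpace
open Pool.Agent.H212R2.KLS (mu Bdd)
open Pool.Agent.H888R2.KT (LC zz gs gc pst hs)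

abbrev E (n : ℕ) : Type := EuclideanSpace ℝ (Fin n)

/-- log-concave density, invariant under permutations and sign changes of the coordinates -/
structure Sy {n : ℕ} (ρ : E n → ℝ) : Prop where
  nonneg : ∀ x, 0 ≤ ρ x
  meas : Measurable ρ
  logc : ∀ x y : E n, ∀ t : ℝ, 0 < t → t < 1 →
    ρ x ^ (1 - t) * ρ y ^ t ≤ ρ ((1 - t) • x + t • y)
  inv : ∀ σ : Equiv.Perm (Fin n), ∀ x y : E n, (∀ i, |y i| = |x (σ i)|) → ρ y = ρ x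

/-- the sum of the absolute values of the coordinates -/
def nm {n : ℕ} (x : E n) : ℝ := ∑ j, |x j|

/-- the reflection `x i ↦ - x i` -/
noncomputable def rf {n : ℕ} (i : Fin n) : E n ≃ₗᵢ[ℝ] E n :=
  LinearIsometryEquiv.piLpCongrRight 2 fun j =>
    if j = i then LinearIsometryEquiv.neg ℝ else LinearIsometryEquiv.refl ℝ ℝ

theorem rf_apply {n : ℕ} (i : Fin n) (x : E n) (j : Fin n) :
    rf i x j = if j = i then - x j else x j := by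
  unfold rf
  rw [LinearIsometryEquiv.piLpCongrRight_apply]
  show (if j = i then LinearIsometryEquiv.neg ℝ else LinearIsometryEquiv.refl ℝ ℝ : ℝ ≃ₗᵢ[ℝ] ℝ) (x j)
    = _
  split_ifs <;> simp

/-- divergence of a vector field -/
noncomputable def dv {n : ℕ} (w : E n → E n) (x : E n) : ℝ :=
  ∑ k, (fderiv ℝ w x (EuclideanSpace.single k 1)) k

/-! ### the vector field -/

/-- `τ(u) = u (1 - u²/R²)₊²` -/
noncomputable def tau (R u : ℝ) : ℝ := u * (max (1 - u ^ 2 / R ^ 2) 0) ^ 2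

noncomputable def psi (R s : ℝ) : ℝ := 1 + Real.exp (-s / R)

/-- `χ(s) = 0` for `s ≤ R`, `= 1` for `s ≥ 2 R` -/
noncomputable def chi (R s : ℝ) : ℝ := Real.smoothTransition ((s - R) / R)

/-- the vector field: the coordinate `i` moves outwards, the small coordinates move inwards -/
noncomputable def fw {n : ℕ} (R : ℝ) (i : Fin n) (x : E n) : E n :=
  WithLp.toLp 2 fun j => if j = i then psi R (x i) else -(3 / (R * n) * chi R (x i) * tau R (x j))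

/-! ### the parts -/

/-- TRANS: spreading (moving small coordinates inwards and a larger one outwards by at least the
total amount) does not increase the density -/
def S_TRANS : Prop := ∀ {n : ℕ} (ρ : E n → ℝ), Sy ρ → ∀ (i : Fin n) (x y : E n), 0 ≤ x i →
  ∀ c : Fin n → ℝ, (∀ j, 0 ≤ c j ∧ c j ≤ 1) → (∀ j, j ≠ i → y j = (1 - c j) * x j) →
  (∀ j, j ≠ i → c j ≠ 0 → |x j| ≤ x i) →
  x i + ∑ j ∈ Finset.univ.erase i, c j * |x j| ≤ y i → ρ y ≤ ρ x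

/-- ZZ: the Gaussian regularisation of `ρ` is again in the class, and smooth -/
def S_ZZ : Prop := ∀ {n : ℕ} (ρ : E n → ℝ), Sy ρ → LC ρ → ∀ h : ℝ, 0 < h →
  Sy (zz h ρ) ∧ ContDiff ℝ 1 (zz h ρ)

/-- IBP: integration by parts -/
def S_IBP : Prop := ∀ {n : ℕ} (g F : E n → ℝ) (w : E n → E n), ContDiff ℝ 1 g → ContDiff ℝ 1 F →
  HasCompactSupport F → ContDiff ℝ 1 w →
  ∫ x, (fderiv ℝ F x (w x) + F x * dv w x) * g x = - ∫ x, F x * fderiv ℝ g x (w x)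

/-- LIM: letting the variance of the Gaussian regularisation tend to `0` -/
def S_LIM : Prop := ∀ {n : ℕ} (ρ : E n → ℝ), LC ρ → ∀ G : E n → ℝ, Continuous G →
  HasCompactSupport G → (∀ h : ℝ, 0 < h → 0 ≤ ∫ y, G y * zz h ρ y) → 0 ≤ ∫ x, G x ∂(mu ρ)

/-- FIELD: properties of the vector field -/
def S_FIELD : Prop := ∀ {n : ℕ} (i : Fin n) (a : ℝ), 0 < a →
  ContDiff ℝ 1 (fw (24 * a) i) ∧ ∀ x : E n, 0 < x i →
    ‖fw (24 * a) i x‖ ≤ 3 ∧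
    (nm x ≤ a * n → dv (fw (24 * a) i) x ≤ -(1 / (192 * a))) ∧
    ∃ c : Fin n → ℝ, (∀ j, 0 ≤ c j) ∧ (∀ j, j ≠ i → fw (24 * a) i x j = -(c j * x j)) ∧
      (∀ j, j ≠ i → c j ≠ 0 → |x j| ≤ x i) ∧
      ∑ j ∈ Finset.univ.erase i, c j * |x j| ≤ fw (24 * a) i x i

/-- FLOW: the weak form of `div_μ w ≤ div w` on the half space `x i > 0` -/
def S_FLOW : Prop := ∀ {n : ℕ} (ρ : E n → ℝ), Sy ρ → LC ρ → ∀ (i : Fin n) (a : ℝ), 0 < a →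
  ∀ F : E n → ℝ, ContDiff ℝ 1 F → HasCompactSupport F → (∀ x, 0 ≤ F x) →
  (∀ x, x i ≤ 0 → F x = 0) →
  0 ≤ ∫ x, (fderiv ℝ F x (fw (24 * a) i x) + F x * dv (fw (24 * a) i) x) ∂(mu ρ)

/-- HALF: the square of an odd function, restricted to the half space -/
def S_HALF : Prop := ∀ {n : ℕ} (i : Fin n) (f : E n → ℝ), ContDiff ℝ 1 f →
  (∀ x, f (rf i x) = - f x) →
  ContDiff ℝ 1 (fun x : E n => if 0 < x i then f x ^ 2 else 0) ∧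
  ∀ x : E n, fderiv ℝ (fun x : E n => if 0 < x i then f x ^ 2 else 0) x =
    if 0 < x i then (2 * f x) • fderiv ℝ f x else 0

/-- CUT: a smooth even cutoff function -/
def S_CUT : Prop := ∀ {n : ℕ} (R : ℝ), 0 < R → ∃ η : E n → ℝ, ContDiff ℝ 1 η ∧
  HasCompactSupport η ∧ (∀ x, ‖x‖ ≤ R → η x = 1 ∧ fderiv ℝ η x = 0) ∧ ∀ i x, η (rf i x) = η x

/-- HARDY: Poincare inequality for functions which are odd in one coordinate -/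
def S_HARDY : Prop := ∀ {n : ℕ} (ρ : E n → ℝ), Sy ρ → LC ρ → ∀ a : ℝ, 0 < a →
  (∀ x, ρ x ≠ 0 → nm x ≤ a * n) → ∀ (i : Fin n) (f : E n → ℝ), ContDiff ℝ 1 f →
  (∀ x, f (rf i x) = - f x) →
  ∫ x, f x ^ 2 ∂(mu ρ) ≤ (1152 * a) ^ 2 * ∫ x, ‖fderiv ℝ f x‖ ^ 2 ∂(mu ρ)

/-- EVEN: discrete Bochner, functions which are even in all coordinates -/
def S_EVEN : Prop := ∀ {n : ℕ} (ρ : E n → ℝ), Sy ρ → LC ρ → ∀ L : ℝ, 0 < L →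
  (∀ (i : Fin n) (f : E n → ℝ), ContDiff ℝ 1 f → (∀ x, f (rf i x) = - f x) →
    ∫ x, f x ^ 2 ∂(mu ρ) ≤ L * ∫ x, ‖fderiv ℝ f x‖ ^ 2 ∂(mu ρ)) →
  ∀ u : E n → ℝ, ContDiff ℝ 1 u → (∀ i x, u (rf i x) = u x) →
  ∃ c : ℝ, ∫ x, (u x - c) ^ 2 ∂(mu ρ) ≤ 4 * L * ∫ x, ‖fderiv ℝ u x‖ ^ 2 ∂(mu ρ)

/-- PAR: parity decomposition -/
def S_PAR : Prop := ∀ {n : ℕ} (ρ : E n → ℝ), Sy ρ → LC ρ → ∀ L : ℝ, 0 < L →
  (∀ (i : Fin n) (f : E n → ℝ), ContDiff ℝ 1 f → (∀ x, f (rf i x) = - f x) →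
    ∫ x, f x ^ 2 ∂(mu ρ) ≤ L * ∫ x, ‖fderiv ℝ f x‖ ^ 2 ∂(mu ρ)) →
  (∀ u : E n → ℝ, ContDiff ℝ 1 u → (∀ i x, u (rf i x) = u x) →
    ∃ c : ℝ, ∫ x, (u x - c) ^ 2 ∂(mu ρ) ≤ L * ∫ x, ‖fderiv ℝ u x‖ ^ 2 ∂(mu ρ)) →
  ∀ f : E n → ℝ, ContDiff ℝ 1 f →
  ∃ c : ℝ, ∫ x, (f x - c) ^ 2 ∂(mu ρ) ≤ L * ∫ x, ‖fderiv ℝ f x‖ ^ 2 ∂(mu ρ)

/-- LOW: lower bound of `ρ 0` -/
def S_LOW : Prop := ∀ {n : ℕ} (ρ : E n → ℝ), 1 ≤ n → Sy ρ → Bdd ρ → mu ρ univ = 1 →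
  ∀ s : ℝ, 0 < s → (∀ i, ∫ x, x i ^ 2 ∂(mu ρ) ≤ s) →
  3 / 4 ≤ ρ 0 * (2 * Real.exp 2 * Real.sqrt s) ^ n

/-- UP: upper bound of `ρ x` -/
def S_UP : Prop := ∀ {n : ℕ} (ρ : E n → ℝ), 1 ≤ n → Sy ρ → mu ρ univ = 1 →
  ∀ x : E n, ρ x * (2 * (nm x / n)) ^ n ≤ 1

/-- TAIL: from LOW and UP -/
def S_TAIL : Prop := ∀ {n : ℕ} (ρ : E n → ℝ), 1 ≤ n → Sy ρ → Bdd ρ → mu ρ univ = 1 →
  ∀ s : ℝ, 0 < s → 3 / 4 ≤ ρ 0 * (2 * Real.exp 2 * Real.sqrt s) ^ n →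
  (∀ x : E n, ρ x * (2 * (nm x / n)) ^ n ≤ 1) → ∀ l : ℝ, 1 ≤ l →
  mu ρ {x | l * (540 * Real.sqrt s) * n < nm x} ≤ ENNReal.ofReal (Real.exp (-(3 * n * (l - 1))))

/-- BAS: the class is stable under restriction to symmetric convex sets and multiplication by
constants -/
def S_BAS : Prop := ∀ {n : ℕ} (ρ : E n → ℝ), Sy ρ →
  (∀ r : ℝ, Sy ({x | nm x ≤ r}.indicator ρ)) ∧ (∀ r : ℝ, Sy ({x | ‖x‖ ≤ r}.indicator ρ)) ∧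
  ∀ c : ℝ, 0 ≤ c → Sy (fun x => c * ρ x)

/-- CORE: bounded support -/
def S_CORE (C : ℝ) : Prop := ∀ {n : ℕ} (ρ : E n → ℝ), 1 ≤ n → Sy ρ → Bdd ρ → mu ρ univ = 1 →
  ∀ s : ℝ, 0 < s → (∀ i, ∫ x, x i ^ 2 ∂(mu ρ) ≤ s) → ∀ f : E n → ℝ, ContDiff ℝ 1 f →
  ∫ x, f x ^ 2 ∂(mu ρ) - (∫ x, f x ∂(mu ρ)) ^ 2 ≤ C * s * ∫ x, ‖fderiv ℝ f x‖ ^ 2 ∂(mu ρ)

/-- MAIN: the general case from CORE -/
def S_MAIN : Prop := ∀ C : ℝ, 0 < C → S_CORE C → ∀ {n : ℕ} (ρ : E n → ℝ), 1 ≤ n → Sy ρ →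
  mu ρ univ = 1 → ∀ s : ℝ, 0 < s →
  (∀ i : Fin n, ∫⁻ x, ENNReal.ofReal (x i ^ 2) ∂(mu ρ) ≤ ENNReal.ofReal s) →
  ∀ f : E n → ℝ, ContDiff ℝ 1 f → MemLp f 2 (mu ρ) →
  ENNReal.ofReal (∫ x, (f x - ∫ y, f y ∂(mu ρ)) ^ 2 ∂(mu ρ)) ≤
    ENNReal.ofReal (C * s) * ∫⁻ x, ENNReal.ofReal (‖fderiv ℝ f x‖ ^ 2) ∂(mu ρ)

end Pool.Agent.W586.SK
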